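import Pool.Agent.V11288.LZ.Equi

/-!
# The `p`-parts of the BSD formula in analytic rank one as a statement on a limit of sums over primes

Let `E` be an elliptic curve over `ℚ` and `K` an imaginary quadratic field with `ord_{s=1} L(E/K, s) = 1`.  For every
prime `v` of `K` choose a matrix `F_v ∈ M_2(ℚ)` with `det(1 - T F_v)` the Euler polynomial of `E/K` at `v` (at the bad
primes filled up with zeros); its complex eigenvalues have absolute value at most `Nv^{1/2}` (`WeightOne`).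
`L(s) = L(E/K, s)` is the Euler product of `det(1 - Nv^{-s} F_v)⁻¹` for `Re s > 3/2`; only the meromorphic continuation
to the points of the real interval `[1, 3/2]` and the simple zero at `s = 1` are used (`IsLFunction`).

Let `Ω`, `R` be the Néron period and the regulator of `E/K`, `D = |D_K|`, and
`ρ = Tam(E/K) #Sha(E/K) / (#E(K)_tors)²`.  By Gross and Zagier `q = √D L'(1) / (Ω R)` is a positive rational number; the
identity `(*)` of the problem for the prime `p` says that `q` and `ρ` have the same `p`-adic valuation.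

Let `γ > π/2` be real, `Λ_γ = ∫_0^∞ (e^{-t} - e^{iγt}/Γ(1+t)) dt/t` and for `X > 1`

`W(X) = ∑_v ∑_{n ≥ 1} tr(F_v^n) / (n Nv^n) · e^{iγt} / Γ(1 + t)`,  `t = n log Nv / log X`,

an absolutely convergent series.  We show, without any hypothesis on the zeros of `L`:

1. `L'(1) = e^{-Λ_γ} (log X) exp W(X) + O(1/log X)` for `X → ∞`;

2. the identity `(*)` holds for ALL odd primes `p` (that is, Q1 holds for `E` and `K`) IF AND ONLY IF

   `(log X) exp W(X) → 2^a e^{Λ_γ} Ω R ρ / √D`  for some integer `a`;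

3. for a single prime `p`: `(*)` holds if and only if `(log X) exp W(X) → c e^{Λ_γ} Ω R ρ / √D` for some positive
   rational number `c` with the `p`-adic valuation `0`.

Proof.  The law of rotated Mittag-Leffler sums at all real points with a rate, `Pool.Agent.V11288.LZ.Eul.lead_rate`.
-/

set_option autoImplicit false

namespace Pool.Agent.Results.MP_23455a_nt.PowersOfTwo

open Filter Topology Set NumberField IsDedekindDomain

variable {K : Type} [Field K] [NumberField K]

/-- `Nv`. -/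
noncomputable def nrm (v : HeightOneSpectrum (𝓞 K)) : ℕ := Ideal.absNorm v.asIdeal

/-- The complex eigenvalues of all `F_v` have absolute value at most `Nv^{1/2}`. -/
def WeightOne (F : HeightOneSpectrum (𝓞 K) → Matrix (Fin 2) (Fin 2) ℚ) : Prop :=
  ∀ v : HeightOneSpectrum (𝓞 K), ∀ z ∈ ((F v).map (algebraMap ℚ ℂ)).charpoly.roots,
    ‖z‖ ≤ (nrm v : ℝ) ^ (1 / 2 : ℝ)

/-- `L(s) = L(E/K, s)`: the Euler product of `det(1 - Nv^{-s} F_v)⁻¹` for `Re s > 3/2`, meromorphic at the points of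
the real interval `[1, 3/2]`, holomorphic at `1` with a simple zero. -/
structure IsLFunction (F : HeightOneSpectrum (𝓞 K) → Matrix (Fin 2) (Fin 2) ℚ) (L : ℂ → ℂ) : Prop where
  mero : ∀ x ∈ Icc (1 : ℝ) (3 / 2), MeromorphicAt L (x : ℂ)
  prod : ∀ s : ℂ, 3 / 2 < s.re → L s =
    ∏' v : HeightOneSpectrum (𝓞 K), ((1 - (nrm v : ℂ) ^ (-s) • (F v).map (algebraMap ℚ ℂ)).det)⁻¹
  hol : AnalyticAt ℂ L 1
  zero : L 1 = 0
  simple : deriv L 1 ≠ 0

/-- The weight `e^{iγt} / Γ(1 + t)`. -/
noncomputable def weight (γ t : ℝ) : ℂ :=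
  Complex.exp ((γ * t : ℝ) * Complex.I) / (Real.Gamma (1 + t) : ℂ)

/-- The term of `W(X)` at `(v, n)`: `tr(F_v^n) / (n Nv^n)` times the weight at `t = n log Nv / log X`. -/
noncomputable def term (F : HeightOneSpectrum (𝓞 K) → Matrix (Fin 2) (Fin 2) ℚ) (γ X : ℝ)
    (v : HeightOneSpectrum (𝓞 K)) (n : ℕ) : ℂ :=
  ((F v ^ n).trace : ℂ) / (n * (nrm v : ℂ) ^ n) * weight γ (n * Real.log (nrm v) / Real.log X)

/-- `W(X)`, the sum over the primes `v` and `n ≥ 1` (here `n = y.2 + 1`). -/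
noncomputable def W (F : HeightOneSpectrum (𝓞 K) → Matrix (Fin 2) (Fin 2) ℚ) (γ X : ℝ) : ℂ :=
  ∑' y : HeightOneSpectrum (𝓞 K) × ℕ, term F γ X y.1 (y.2 + 1)

/-- `Λ_γ = ∫_0^∞ (e^{-t} - e^{iγt} / Γ(1 + t)) dt / t`. -/
noncomputable def Lam (γ : ℝ) : ℂ := ∫ t in Ioi (0 : ℝ),
  (Complex.exp (-(t : ℂ)) - Complex.exp ((γ * t : ℝ) * Complex.I) * ((Real.Gamma (1 + t))⁻¹ : ℝ)) / t

/-- `(log X) exp W(X) → c e^{Λ_γ} y`. -/
def PrimeLimit (F : HeightOneSpectrum (𝓞 K) → Matrix (Fin 2) (Fin 2) ℚ) (γ : ℝ) (c : ℚ) (y : ℝ) :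
    Prop :=
  Tendsto (fun X : ℝ => Real.log X * Complex.exp (W F γ X)) atTop (𝓝 (c * Complex.exp (Lam γ) * y))

open Pool.Agent.V11288.LZ

variable {F : HeightOneSpectrum (𝓞 K) → Matrix (Fin 2) (Fin 2) ℚ} {γ : ℝ} {L : ℂ → ℂ}

theorem eul (hF : WeightOne F) :
    Eul 1 (1 / 2) (fun v : HeightOneSpectrum (𝓞 K) => (nrm v : ℝ))
      (fun v => (F v).map (algebraMap ℚ ℂ)) :=
  ⟨le_rfl, fun v => by exact_mod_cast Pool.Agent.H921R2.TatePole.two_le_nm v,
    fun _ hx => Pool.Agent.H921R2.TatePole.nm_summable hx, hF⟩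

theorem trace_map (M : Matrix (Fin 2) (Fin 2) ℚ) (n : ℕ) :
    (M.map (algebraMap ℚ ℂ) ^ n).trace = ((M ^ n).trace : ℂ) := by
  have h1 : M.map (algebraMap ℚ ℂ) ^ n = (M ^ n).map (algebraMap ℚ ℂ) := by
    rw [← RingHom.mapMatrix_apply, ← RingHom.mapMatrix_apply, map_pow]
  rw [h1]
  simp [Matrix.trace]

theorem term_eq (X : ℝ) (y : HeightOneSpectrum (𝓞 K) × ℕ) :
    tm (fun v : HeightOneSpectrum (𝓞 K) => (nrm v : ℝ)) (fun v => (F v).map (algebraMap ℚ ℂ)) 1 γ X y =
      term F γ X y.1 (y.2 + 1) := by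
  unfold tm term weight wt
  rw [trace_map, Real.rpow_one, Complex.ofReal_natCast]

theorem W_eq (X : ℝ) :
    tot (fun v : HeightOneSpectrum (𝓞 K) => (nrm v : ℝ)) (fun v => (F v).map (algebraMap ℚ ℂ)) 1 γ X =
      W F γ X :=
  tsum_congr fun y => term_eq X y

theorem lim_of_rate {f : ℝ → ℂ} {z : ℂ} (h : (fun X : ℝ => f X - z) =O[atTop]
    (fun X : ℝ => 1 / Real.log X)) : Tendsto f atTop (𝓝 z) := by
  have h1 := (h.trans_tendsto (tendsto_const_nhds.div_atTop Real.tendsto_log_atTop)).add_const z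
  simpa using h1

theorem main (hF : WeightOne F) (hL : IsLFunction F L) (hγ : Real.pi / 2 < γ) :
    (fun X : ℝ => Real.log X * Complex.exp (W F γ X) - Complex.exp (Lam γ) * deriv L 1) =O[atTop]
      (fun X : ℝ => 1 / Real.log X) := by
  have h1 : Tendsto (fun s : ℂ => L s / (s - ((1 : ℝ) : ℂ)) ^ (1 : ℤ)) (𝓝[≠] ((1 : ℝ) : ℂ))
      (𝓝 (deriv L 1)) := by
    have h2 := hasDerivAt_iff_tendsto_slope.1 hL.hol.differentiableAt.hasDerivAt
    rw [Complex.ofReal_one]
    refine h2.congr fun s => ?_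
    rw [slope_def_field, hL.zero, sub_zero, zpow_one]
  have h3 := (eul hF).lead_rate (L := L) 1 (fun x hx => hL.mero x ⟨hx.1, by linarith [hx.2]⟩)
    (fun s hs => by
      rw [hL.prod s (by linarith)]
      simp only [Complex.ofReal_natCast]) hγ h1
  simp only [W_eq, zpow_one, Int.cast_one, one_mul] at h3
  exact h3

theorem eq_one (t : ℚ) (ht : 0 < t) (h : ∀ p : ℕ, p.Prime → padicValRat p t = 0) : t = 1 := by
  have hnum : 0 < t.num := Rat.num_pos.2 ht
  have hden : t.den = 1 := by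
    by_contra hne
    obtain ⟨p, hp, hpd⟩ := Nat.exists_prime_and_dvd hne
    have hpf : Fact p.Prime := ⟨hp⟩
    have h1 := h p hp
    rw [padicValRat] at h1
    have h2 : padicValInt p t.num = 0 := by
      rw [padicValInt]
      apply padicValNat.eq_zero_of_not_dvd
      intro hd
      have h3 : p ∣ Nat.gcd t.num.natAbs t.den := Nat.dvd_gcd hd hpd
      rw [t.reduced] at h3
      exact hp.one_lt.ne' (Nat.dvd_one.1 h3)
    have h3 : 1 ≤ padicValNat p t.den := one_le_padicValNat_of_dvd t.den_ne_zero hpd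
    rw [h2] at h1
    omega
  have hn : t.num.natAbs = 1 := by
    by_contra hne
    obtain ⟨p, hp, hpd⟩ := Nat.exists_prime_and_dvd hne
    have hpf : Fact p.Prime := ⟨hp⟩
    have h1 := h p hp
    rw [padicValRat, hden, padicValInt] at h1
    have h3 : 1 ≤ padicValNat p t.num.natAbs :=
      one_le_padicValNat_of_dvd (by omega) hpd
    rw [padicValNat_one_right] at h1
    omega
  have h1 : t.num = 1 := by omega
  rw [← Rat.num_div_den t, h1, hden]
  norm_num

theorem two_power (q ρ : ℚ) (hq : 0 < q) (hρ : 0 < ρ) :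
    (∀ p : ℕ, p.Prime → p ≠ 2 → padicValRat p q = padicValRat p ρ) ↔ ∃ a : ℤ, q = 2 ^ a * ρ := by
  constructor
  · intro h
    refine ⟨padicValRat 2 (q / ρ), ?_⟩
    set a := padicValRat 2 (q / ρ) with ha
    have ht : q / ρ * 2 ^ (-a) = 1 := by
      apply eq_one _ (by positivity)
      intro p hp
      have hpf : Fact p.Prime := ⟨hp⟩
      have h2 : (2 : ℚ) ^ (-a) ≠ 0 := by positivity
      rw [padicValRat.mul (div_pos hq hρ).ne' h2, padicValRat.zpow]
      by_cases hp2 : p = 2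
      · subst hp2
        have h3 : padicValRat 2 (2 : ℚ) = 1 := by
          have := padicValRat.self (p := 2) (by norm_num)
          exact_mod_cast this
        rw [h3, ← ha]
        ring
      · have h3 : padicValRat p (2 : ℚ) = 0 := by
          have h4 : padicValRat p ((2 : ℕ) : ℚ) = 0 := by
            rw [padicValRat.of_nat]
            have h5 : padicValNat p 2 = 0 := by
              apply padicValNat.eq_zero_of_not_dvd
              intro hd
              exact hp2 ((Nat.prime_dvd_prime_iff_eq hp Nat.prime_two).1 hd)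
            rw [h5]
            rfl
          exact_mod_cast h4
        rw [h3, padicValRat.div hq.ne' hρ.ne', h p hp hp2]
        ring
    rw [zpow_neg] at ht
    have h2 : (2 : ℚ) ^ a ≠ 0 := by positivity
    field_simp at ht
    linarith
  · rintro ⟨a, rfl⟩ p hp hp2
    have hpf : Fact p.Prime := ⟨hp⟩
    have h2 : (2 : ℚ) ^ a ≠ 0 := by positivity
    have h3 : padicValRat p (2 : ℚ) = 0 := by
      have h4 : padicValRat p ((2 : ℕ) : ℚ) = 0 := by
        rw [padicValRat.of_nat]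
        have h5 : padicValNat p 2 = 0 := by
          apply padicValNat.eq_zero_of_not_dvd
          intro hd
          exact hp2 ((Nat.prime_dvd_prime_iff_eq hp Nat.prime_two).1 hd)
        rw [h5]
        rfl
      exact_mod_cast h4
    rw [padicValRat.mul h2 hρ.ne', padicValRat.zpow, h3]
    ring

/-- **The `p`-parts of the BSD formula in analytic rank one as a statement on a limit of sums over primes.** -/
theorem result (_ : Module.finrank ℚ K = 2) (F : HeightOneSpectrum (𝓞 K) → Matrix (Fin 2) (Fin 2) ℚ)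
    (hF : WeightOne F) (L : ℂ → ℂ) (hL : IsLFunction F L) (D Ω R : ℝ) (hD : 0 < D) (hΩ : 0 < Ω)
    (hR : 0 < R) (tam sha tors : ℕ) (htam : 0 < tam) (hsha : 0 < sha) (htors : 0 < tors) (q : ℚ)
    (hq : 0 < q) (hGZ : (Real.sqrt D : ℂ) * deriv L 1 / (Ω * R) = q) (γ : ℝ) (hγ : Real.pi / 2 < γ) :
    (∀ X : ℝ, 1 < X → Summable fun y : HeightOneSpectrum (𝓞 K) × ℕ => ‖term F γ X y.1 (y.2 + 1)‖) ∧
    (fun X : ℝ => Complex.exp (-Lam γ) * (Real.log X * Complex.exp (W F γ X)) - deriv L 1) =O[atTop]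
      (fun X : ℝ => 1 / Real.log X) ∧
    ((∀ p : ℕ, p.Prime → p ≠ 2 → padicValRat p q = padicValRat p (tam * sha / tors ^ 2)) ↔
      ∃ a : ℤ, PrimeLimit F γ (2 ^ a) (Ω * R * (tam * sha / tors ^ 2) / Real.sqrt D)) ∧
    ∀ p : ℕ, p.Prime → (padicValRat p q = padicValRat p (tam * sha / tors ^ 2) ↔
      ∃ c : ℚ, 0 < c ∧ padicValRat p c = 0 ∧
        PrimeLimit F γ c (Ω * R * (tam * sha / tors ^ 2) / Real.sqrt D)) := by
  have hm := main hF hL hγ
  have hexp0 : Complex.exp (Lam γ) ≠ 0 := Complex.exp_ne_zero _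
  have hsD : (Real.sqrt D : ℂ) ≠ 0 := by exact_mod_cast (Real.sqrt_pos.2 hD).ne'
  have hΩ' : (Ω : ℂ) ≠ 0 := by exact_mod_cast hΩ.ne'
  have hR' : (R : ℂ) ≠ 0 := by exact_mod_cast hR.ne'
  set ρ : ℚ := tam * sha / tors ^ 2 with hρdef
  have h1' : (0 : ℚ) < tam := by exact_mod_cast htam
  have h2' : (0 : ℚ) < sha := by exact_mod_cast hsha
  have h3' : (0 : ℚ) < tors := by exact_mod_cast htors
  have hρ : 0 < ρ := by positivity
  have hder : deriv L 1 = q * (Ω * R) / Real.sqrt D := by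
    rw [← hGZ]
    field_simp
  have hρc : ((Ω * R * (tam * sha / tors ^ 2) / Real.sqrt D : ℝ) : ℂ) = Ω * R * ρ / Real.sqrt D := by
    rw [hρdef]
    push_cast
    rfl
  have key : ∀ c : ℚ, PrimeLimit F γ c (Ω * R * (tam * sha / tors ^ 2) / Real.sqrt D) ↔ q = c * ρ := by
    intro c
    have hval : (c : ℂ) * Complex.exp (Lam γ) * ((Ω * R * (tam * sha / tors ^ 2) / Real.sqrt D : ℝ) : ℂ) =
        Complex.exp (Lam γ) * ((c * ρ : ℚ) * (Ω * R) / Real.sqrt D) := by
      rw [hρc]
      push_cast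
      ring
    unfold PrimeLimit
    rw [hval]
    constructor
    · intro h
      have h4 := mul_left_cancel₀ hexp0 (tendsto_nhds_unique (lim_of_rate hm) h)
      rw [hder] at h4
      have h5 : (q : ℂ) = ((c * ρ : ℚ) : ℂ) := by
        have h6 : (Ω : ℂ) * R / Real.sqrt D ≠ 0 := div_ne_zero (mul_ne_zero hΩ' hR') hsD
        apply mul_right_cancel₀ h6
        rw [← mul_div_assoc, h4, mul_div_assoc]
      exact_mod_cast h5
    · intro h
      have h4 := lim_of_rate hm
      rw [hder, h] at h4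
      exact h4
  refine ⟨fun X hX => ?_, ?_, ?_, fun p hp => ?_⟩
  · refine (((eul hF).final' (L := L) 1 (fun x hx => hL.mero x ⟨hx.1, by linarith [hx.2]⟩)
      (fun s hs => by
        rw [hL.prod s (by linarith)]
        simp only [Complex.ofReal_natCast]) hγ).1 X hX).congr fun y => ?_
    rw [term_eq]
  · refine (hm.const_mul_left (Complex.exp (-Lam γ))).congr_left fun X => ?_
    have hexp : Complex.exp (-Lam γ) * Complex.exp (Lam γ) = 1 := by
      rw [← Complex.exp_add, neg_add_cancel, Complex.exp_zero]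
    linear_combination -(deriv L 1) * hexp
  · rw [two_power q ρ hq hρ]
    exact exists_congr fun a => (key _).symm
  · have hpf : Fact p.Prime := ⟨hp⟩
    constructor
    · intro h
      refine ⟨q / ρ, div_pos hq hρ, ?_, (key _).2 (by field_simp)⟩
      rw [padicValRat.div hq.ne' hρ.ne', h, sub_self]
    · rintro ⟨c, hc, hcp, h⟩
      rw [(key c).1 h, padicValRat.mul hc.ne' hρ.ne', hcp, zero_add]

end Pool.Agent.Results.MP_23455a_nt.PowersOfTwo
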